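import Pool.Agent.H89.FLT.S

/-!
# MP_e1ba20: row GAP
-/

set_option autoImplicit false

open Matrix

namespace Pool.FLT

theorem gap : GAPStmt := by
  intro n hn
  have hn0 : (0 : ℝ) < n := by
    have : 0 < n := by omega
    exact_mod_cast this
  have h1n : (1 : ℝ) < 1 + 1 / n := by
    have : (0 : ℝ) < 1 / n := by positivity
    linarith
  refine ⟨Real.log (1 + 1 / n) / 2, by have := Real.log_pos h1n; linarith, ?_⟩
  intro g x hx hx0
  obtain ⟨η, d, hD, hd⟩ := hx
  by_contra hlt
  rw [not_le] at hlt
  -- trace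
  set A : Matrix (Fin n) (Fin n) ℝ := cst η with hA
  set G : Matrix (Fin n) (Fin n) ℝ := (g : Matrix (Fin n) (Fin n) ℝ) with hG
  have hdet : IsUnit G.det := by
    have : G.det = 1 := g.2
    rw [this]
    exact isUnit_one
  have hGG : G * G⁻¹ = 1 := Matrix.mul_nonsing_inv G hdet
  have hGG' : G⁻¹ * G = 1 := Matrix.nonsing_inv_mul G hdet
  have hAG : A * G = G * Matrix.diagonal d := hD
  have e1 : A * (A * G) = G * (Matrix.diagonal d * Matrix.diagonal d) := by
    calc A * (A * G) = A * (G * Matrix.diagonal d) := congrArg (fun M => A * M) hAG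
      _ = (A * G) * Matrix.diagonal d := (mul_assoc _ _ _).symm
      _ = (G * Matrix.diagonal d) * Matrix.diagonal d :=
          congrArg (fun M => M * Matrix.diagonal d) hAG
      _ = G * (Matrix.diagonal d * Matrix.diagonal d) := mul_assoc _ _ _
  have hAA : A * A = G * (Matrix.diagonal d * Matrix.diagonal d) * G⁻¹ := by
    calc A * A = A * A * (G * G⁻¹) := by rw [hGG, mul_one]
      _ = A * (A * G) * G⁻¹ := by simp only [mul_assoc]
      _ = G * (Matrix.diagonal d * Matrix.diagonal d) * G⁻¹ := by rw [e1]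
  have htr : Matrix.trace (A * A) = ∑ i, d i * d i := by
    rw [hAA, Matrix.trace_mul_comm, ← mul_assoc, hGG', one_mul, Matrix.diagonal_mul_diagonal,
      Matrix.trace_diagonal]
  have hint : ∃ z : ℤ, Matrix.trace (A * A) = (z : ℝ) := by
    refine ⟨Matrix.trace (η * η), ?_⟩
    simp [hA, cst, Matrix.trace, Matrix.mul_apply, Matrix.map_apply]
  obtain ⟨z, hz⟩ := hint
  have hdd : ∀ i, d i * d i = Real.exp (2 * co x i) := by
    intro i
    have h1 : d i * d i = |d i| * |d i| := (abs_mul_abs_self (d i)).symm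
    rw [h1, hd i, ← Real.exp_add]
    congr 1
    simp only [co]
    ring
  have hsum : (z : ℝ) = ∑ i, Real.exp (2 * co x i) := by
    rw [← hz, htr]
    exact Finset.sum_congr rfl fun i _ => hdd i
  have hx00 : ∑ i, co x i = 0 := x.2
  -- a nonzero coordinate
  have hne : ∃ j, co x j ≠ 0 := by
    by_contra hcon
    push Not at hcon
    apply hx0
    apply Subtype.ext
    ext i
    exact hcon i
  obtain ⟨j, hj⟩ := hne
  have hgt : (n : ℝ) < z := by
    rw [hsum]
    have e1 : (n : ℝ) = ∑ i : Fin n, (2 * co x i + 1) := by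
      rw [Finset.sum_add_distrib, ← Finset.mul_sum, hx00]
      simp
    rw [e1]
    apply Finset.sum_lt_sum
    · intro i _
      exact Real.add_one_le_exp _
    · exact ⟨j, Finset.mem_univ j, Real.add_one_lt_exp (by
        intro h
        apply hj
        linarith)⟩
  have hge : (n : ℝ) + 1 ≤ z := by
    have : (n : ℤ) < z := by exact_mod_cast hgt
    have h2 : (n : ℤ) + 1 ≤ z := this
    exact_mod_cast h2
  have hlt2 : (z : ℝ) < n + 1 := by
    rw [hsum]
    have e2 : (n : ℝ) + 1 = ∑ _i : Fin n, (1 + 1 / (n : ℝ)) := by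
      rw [Finset.sum_const, Finset.card_univ, Fintype.card_fin, nsmul_eq_mul]
      field_simp
    rw [e2]
    have hb : ∀ i, Real.exp (2 * co x i) < 1 + 1 / (n : ℝ) := by
      intro i
      have h1 : |co x i| ≤ ‖x‖ := by
        have := PiLp.norm_apply_le (x : EuclideanSpace ℝ (Fin n)) i
        rw [Real.norm_eq_abs] at this
        exact this
      have h2 : co x i ≤ ‖x‖ := le_trans (le_abs_self _) h1
      have h3 : 2 * co x i < Real.log (1 + 1 / n) := by linarith
      calc Real.exp (2 * co x i) < Real.exp (Real.log (1 + 1 / n)) := Real.exp_lt_exp.2 h3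
        _ = 1 + 1 / (n : ℝ) := Real.exp_log (by linarith)
    apply Finset.sum_lt_sum_of_nonempty ⟨j, Finset.mem_univ j⟩
    intro i _
    exact hb i
  linarith

end Pool.FLT
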